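import Pool.Agent.Helper9.WS.Defs
import Pool.Agent.Helper24.WS.AH

/-!
# Project WS, block WS-4: a uniformizer `γ` with `ev p M γ = ζ`
-/

open Finset Polynomial

namespace Pool.Agent.Helper9.WS

private theorem ah_zero44 (p : ℕ) : ah p 0 = 1 := by
  rw [ah]

private theorem ah_one44 (p : ℕ) : ah p 1 = 1 := by
  rw [ah]
  have h1 : ((range (0 + 1)).filter fun j => p ^ j ≤ 0 + 1) = {0} := by
    ext j
    simp only [mem_filter, mem_range, mem_singleton]
    constructor
    · intro h
      omega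
    · rintro rfl
      simp
  rw [h1, sum_singleton]
  simp [ah_zero44]

section

variable {L : Type} [Field L] (O : ValuationSubring L)

/-- the valuations of `1 - ζ ^ i` -/
private theorem v_one_sub_pow44 {ζ : L} (hζ : O.valuation ζ = 1) (i : ℕ) :
    O.valuation (1 - ζ ^ i) ≤ O.valuation (1 - ζ) := by
  have h := geom_sum_mul ζ i
  have e : 1 - ζ ^ i = (∑ j ∈ range i, ζ ^ j) * (1 - ζ) := by linear_combination h
  rw [e, map_mul]
  refine mul_le_of_le_one_left' ?_
  refine Valuation.map_sum_le _ fun j _ => ?_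
  rw [map_pow, hζ, one_pow]

private theorem v_root_one44 {ζ : L} {p : ℕ} (hp : p ≠ 0) (hζ : ζ ^ p = 1) :
    O.valuation ζ = 1 := by
  have h := congrArg O.valuation hζ
  rw [map_pow, map_one] at h
  exact (pow_eq_one_iff.1 h).resolve_right hp

/-- `1 - ζ` is a uniformizer -/
private theorem v_one_sub44 {p : ℕ} [Fact p.Prime] {ζ : L} (hζ : IsPrimitiveRoot ζ p) :
    O.valuation (1 - ζ) ^ (p - 1) = O.valuation (p : L) := by
  classical
  have hp : p.Prime := Fact.out
  have h1 := Polynomial.eval_one_cyclotomic_prime (R := L) (p := p)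
  rw [cyclotomic_eq_prod_X_sub_primitiveRoots hζ, eval_prod] at h1
  have h2 : ∀ μ ∈ primitiveRoots p L, O.valuation (eval 1 (X - C μ)) = O.valuation (1 - ζ) := by
    intro μ hμ
    have hμ' := (mem_primitiveRoots hp.pos).1 hμ
    rw [eval_sub, eval_X, eval_C]
    obtain ⟨i, _, hi⟩ := hζ.eq_pow_of_pow_eq_one hμ'.pow_eq_one
    obtain ⟨j, _, hj⟩ := hμ'.eq_pow_of_pow_eq_one hζ.pow_eq_one
    refine le_antisymm ?_ ?_
    · rw [← hi]
      exact v_one_sub_pow44 O (v_root_one44 O hp.ne_zero hζ.pow_eq_one) i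
    · rw [← hj]
      exact v_one_sub_pow44 O (v_root_one44 O hp.ne_zero hμ'.pow_eq_one) j
  rw [← h1, map_prod, prod_congr rfl h2, prod_const, hζ.card_primitiveRoots, Nat.totient_prime hp]

end

theorem exists_gamma {p : ℕ} [Fact p.Prime] {κ L : Type} [Field κ] [Field L] [CharZero L]
    [IsAlgClosed L] (Φ : Frame p κ L) {ζ : L} (hζ : IsPrimitiveRoot ζ p) {M : ℕ} (hM : 2 ≤ M) :
    ∃ γ : L, ev p M γ = ζ ∧ Φ.v γ ^ (p - 1) = Φ.v (p : L) := by
  classical
  have hah : ∀ n, Φ.v ((ah p n : ℚ) : L) ≤ 1 := v_ah Φ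
  have hp : p.Prime := Fact.out
  have hδ := v_one_sub44 Φ.O hζ
  set δ := Φ.O.valuation (1 - ζ) with hδdef
  have hz0 : 1 - ζ ≠ 0 := sub_ne_zero.2 (Ne.symm (hζ.ne_one hp.one_lt))
  have hδ0 : 0 < δ := by
    rw [hδdef, Valuation.pos_iff]
    exact hz0
  have hδ1 : δ < 1 := by
    by_contra h
    rw [not_lt] at h
    have h1 : 1 ≤ δ ^ (p - 1) := one_le_pow₀ h
    rw [hδ] at h1
    exact absurd Φ.p_lt (not_lt.2 h1)
  -- the polynomial
  obtain ⟨m, rfl⟩ : ∃ m, M = m + 2 := ⟨M - 2, by omega⟩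
  set g : L[X] := ∑ j ∈ range (m + 2), C ((ah p j : ℚ) : L) * X ^ j - C ζ with hg
  have hge : ∀ x, g.eval x = ev p (m + 2) x - ζ := by
    intro x
    rw [hg, eval_sub, eval_C, eval_finsetSum, ev]
    congr 1
    refine sum_congr rfl fun j _ => ?_
    rw [eval_mul, eval_C, eval_pow, eval_X]
  have hev : ∀ x : L, ev p (m + 2) x =
      1 + x * (1 + x * ∑ j ∈ range m, ((ah p (j + 2) : ℚ) : L) * x ^ j) := by
    intro x
    rw [ev, sum_range_succ', sum_range_succ', ah_zero44, ah_one44 p, mul_sum, mul_add,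
      mul_sum]
    have e : ∀ j, ((ah p (j + 1 + 1) : ℚ) : L) * x ^ (j + 1 + 1) =
        x * (x * (((ah p (j + 2) : ℚ) : L) * x ^ j)) := fun j => by ring
    rw [sum_congr rfl fun j _ => e j]
    push_cast
    ring
  have hg0 : g.eval 0 = 1 - ζ := by
    rw [hge, hev]
    ring
  have hg' : g.derivative.eval 0 = 1 := by
    rw [hg, derivative_sub, derivative_C, sub_zero, derivative_sum, eval_finsetSum,
      sum_range_succ', sum_range_succ', ah_zero44, ah_one44 p]
    simp
  have hsp : g.Splits := IsAlgClosed.splits g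
  have h1 := hsp.eval_derivative_div_eval_of_ne_zero (x := 0) (by rw [hg0]; exact hz0)
  rw [hg', hg0] at h1
  -- a root of small valuation
  have hgne : g ≠ 0 := by
    intro h
    rw [h, eval_zero] at hg0
    exact hz0 hg0.symm
  obtain ⟨γ, hγ, hγδ⟩ : ∃ γ ∈ g.roots, Φ.O.valuation γ ≤ δ := by
    by_contra hcon
    push Not at hcon
    have h2 : ∀ s : Multiset L, (∀ z ∈ s, δ < Φ.O.valuation z) →
        Φ.O.valuation ((s.map fun z => 1 / (0 - z)).sum) < δ⁻¹ := by
      intro s
      induction s using Multiset.induction_on with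
      | empty =>
        intro _
        rw [Multiset.map_zero, Multiset.sum_zero, map_zero]
        exact inv_pos.2 hδ0
      | cons z s ih =>
        intro h
        rw [Multiset.map_cons, Multiset.sum_cons]
        refine Valuation.map_add_lt _ ?_ (ih fun w hw => h w (Multiset.mem_cons_of_mem hw))
        rw [zero_sub, one_div, map_inv₀, Valuation.map_neg]
        exact inv_strictAnti₀ hδ0 (h z (Multiset.mem_cons_self z s))
    have h3 := h2 g.roots hcon
    rw [← h1, one_div, map_inv₀] at h3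
    exact absurd h3 (lt_irrefl _)
  have hroot : g.eval γ = 0 := (mem_roots hgne).1 hγ
  rw [hge] at hroot
  refine ⟨γ, sub_eq_zero.1 hroot, ?_⟩
  rw [hev] at hroot
  have hγ1 : Φ.O.valuation γ < 1 := hγδ.trans_lt hδ1
  set t := γ * ∑ j ∈ range m, ((ah p (j + 2) : ℚ) : L) * γ ^ j with ht
  have hsum : Φ.O.valuation (∑ j ∈ range m, ((ah p (j + 2) : ℚ) : L) * γ ^ j) ≤ 1 := by
    refine Valuation.map_sum_le _ fun j _ => ?_
    rw [map_mul, map_pow]
    exact mul_le_one' (hah _) (pow_le_one' hγ1.le _)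
  have ht1 : Φ.O.valuation t < 1 := by
    rw [ht, map_mul]
    exact (mul_le_of_le_one_right' hsum).trans_lt hγ1
  have h5 : γ * (1 + t) = -(1 - ζ) := by linear_combination hroot
  have h6 := congrArg Φ.O.valuation h5
  rw [map_mul, Valuation.map_neg, Valuation.map_one_add_of_lt _ ht1, mul_one] at h6
  change Φ.O.valuation γ ^ (p - 1) = Φ.O.valuation (p : L)
  rw [h6, ← hδdef, hδ]

end Pool.Agent.Helper9.WS
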